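import Pool.Agent.Lib_helper90.FS.Defs

set_option autoImplicit false

/-! BLOCK CT. The count. -/

namespace Pool.Agent.H90.FS

universe u

private theorem CT_conv {κ : Type u} [Field κ] {Γ : Type u} [Group Γ] (x y : MonoidAlgebra κ Γ)
    (E : Finset Γ) (f f' : Γ) (h : ∀ g ∈ x.coeff.support, f * g ∈ E) :
    ∑ e ∈ E, x.coeff (f⁻¹ * e) * y.coeff (e⁻¹ * f') = (x * y).coeff (f⁻¹ * f') := by
  rw [MonoidAlgebra.coeff_mul_apply_left, Finsupp.sum]
  symm
  refine Finset.sum_of_injOn (fun g => f * g) (fun a _ b _ hab => mul_left_cancel hab)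
    (fun g hg => h g hg) ?_ ?_
  · intro e _ he
    have : x.coeff (f⁻¹ * e) = 0 := by
      by_contra hne
      exact he ⟨f⁻¹ * e, Finsupp.mem_support_iff.2 hne, mul_inv_cancel_left f e⟩
    rw [this, zero_mul]
  · intro g _
    show _ = x.coeff (f⁻¹ * (f * g)) * y.coeff ((f * g)⁻¹ * f')
    rw [inv_mul_cancel_left, mul_inv_rev, mul_assoc]

/-- BLOCK CT. The count. -/
theorem count {κ : Type u} [Field κ] {Γ : Type u} [Group Γ] (hΓ : Fol Γ) {I Y : Type} [Fintype I]
    [Fintype Y] {m : ℕ} (Λ : I → Fin m → MonoidAlgebra κ Γ) (hΛ : Indep Λ)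
    (Θ : Fin m → Y → MonoidAlgebra κ Γ)
    (hΘ : ∀ u : Y → MonoidAlgebra κ Γ, (∀ j, ∑ y, Θ j y * u y = 0) → ∀ y, u y = 0)
    (h0 : ∀ i y, ∑ j, Λ i j * Θ j y = 0) : Fintype.card I + Fintype.card Y ≤ m := by
  classical
  by_contra hcon
  have hcon' : m + 1 ≤ Fintype.card I + Fintype.card Y := by omega
  obtain ⟨K, hK⟩ : ∃ K : Set Γ, K = (⋃ i : I, ⋃ j : Fin m, ((Λ i j).coeff.support : Set Γ)) ∪
      ⋃ y : Y, ⋃ j : Fin m, (fun g : Γ => g⁻¹) '' ((Θ j y).coeff.support : Set Γ) := ⟨_, rfl⟩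
  have hKf : K.Finite := by
    rw [hK]
    exact (Set.finite_iUnion fun i => Set.finite_iUnion fun j => Finset.finite_toSet _).union
      (Set.finite_iUnion fun y => Set.finite_iUnion fun j => (Finset.finite_toSet _).image _)
  obtain ⟨E, B, hBE, hEne, hE, hq⟩ := hΓ K hKf (m + 2)
  have hK1 : ∀ i j, ∀ g, (Λ i j).coeff g ≠ 0 → g ∈ K := by
    intro i j g hg
    rw [hK]
    exact Or.inl (Set.mem_iUnion.2 ⟨i, Set.mem_iUnion.2 ⟨j, Finsupp.mem_support_iff.2 hg⟩⟩)
  have hK2 : ∀ y j, ∀ g, (Θ j y).coeff g ≠ 0 → g⁻¹ ∈ K := by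
    intro y j g hg
    rw [hK]
    exact Or.inr (Set.mem_iUnion.2 ⟨y, Set.mem_iUnion.2 ⟨j, ⟨g, Finsupp.mem_support_iff.2 hg, rfl⟩⟩⟩)
  obtain ⟨E0, hE0⟩ : ∃ E0 : Finset Γ, E0 = E \ B := ⟨_, rfl⟩
  have hE0' : ∀ f ∈ E0, ∀ k ∈ K, f * k ∈ E := by
    intro f hf k hk
    rw [hE0, Finset.mem_sdiff] at hf
    exact hE f hf.1 hf.2 k hk
  have hcard : E0.card + B.card = E.card := by
    rw [hE0]
    exact Finset.card_sdiff_add_card_eq_card hBE
  obtain ⟨MA, hMA⟩ : ∃ MA : Matrix (I × E0) (Fin m × E) κ,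
      MA = fun r c => (Λ r.1 c.1).coeff ((r.2 : Γ)⁻¹ * c.2) := ⟨_, rfl⟩
  obtain ⟨MB, hMB⟩ : ∃ MB : Matrix (Fin m × E) (Y × E0) κ,
      MB = fun r c => (Θ r.1 c.1).coeff ((r.2 : Γ)⁻¹ * c.2) := ⟨_, rfl⟩
  -- the product
  have hprod : MA * MB = 0 := by
    ext r c
    rw [Matrix.mul_apply, Fintype.sum_prod_type, Matrix.zero_apply, hMA, hMB]
    have h1 : ∀ j : Fin m, (∑ e : E, (Λ r.1 j).coeff ((r.2 : Γ)⁻¹ * e) *
        (Θ j c.1).coeff ((e : Γ)⁻¹ * c.2)) = (Λ r.1 j * Θ j c.1).coeff ((r.2 : Γ)⁻¹ * c.2) := by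
      intro j
      rw [← CT_conv (Λ r.1 j) (Θ j c.1) E r.2 c.2 (fun g hg => hE0' _ r.2.2 g
        (hK1 _ _ g (Finsupp.mem_support_iff.1 hg)))]
      exact Finset.sum_coe_sort E (fun e => (Λ r.1 j).coeff ((r.2 : Γ)⁻¹ * e) *
        (Θ j c.1).coeff (e⁻¹ * c.2))
    have h2 := congrArg (fun z : MonoidAlgebra κ Γ => z.coeff ((r.2 : Γ)⁻¹ * c.2)) (h0 r.1 c.1)
    simp only [MonoidAlgebra.coeff_sum, MonoidAlgebra.coeff_zero, Finsupp.coe_finsetSum,
      Finset.sum_apply, Finsupp.coe_zero, Pi.zero_apply] at h2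
    rw [← h2]
    exact Finset.sum_congr rfl fun j _ => h1 j
  -- the rows
  have hsing : ∀ (c : E0 → κ) (g : Γ), (∑ f : E0, MonoidAlgebra.single (f : Γ) (c f)).coeff g =
      if h : g ∈ E0 then c ⟨g, h⟩ else 0 := by
    intro c g
    simp only [MonoidAlgebra.coeff_sum, Finsupp.coe_finsetSum, Finset.sum_apply,
      MonoidAlgebra.coeff_single]
    by_cases h : g ∈ E0
    · rw [dif_pos h, Finset.sum_eq_single (⟨g, h⟩ : E0)]
      · simp
      · intro b _ hb
        rw [Finsupp.single_apply, if_neg]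
        intro hbg
        exact hb (Subtype.ext hbg)
      · intro h'
        exact absurd (Finset.mem_univ _) h'
    · rw [dif_neg h]
      refine Finset.sum_eq_zero fun b _ => ?_
      rw [Finsupp.single_apply, if_neg]
      rintro rfl
      exact h b.2
  have hrowA : LinearIndependent κ MA.row := by
    rw [Fintype.linearIndependent_iff]
    intro c hc
    have hd := hΛ (fun i => ∑ f : E0, MonoidAlgebra.single (f : Γ) (c (i, f))) (by
      intro j
      ext e
      simp only [Finset.sum_mul, MonoidAlgebra.coeff_sum, Finsupp.coe_finsetSum, Finset.sum_apply,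
        MonoidAlgebra.coeff_single_mul_apply, MonoidAlgebra.coeff_zero, Finsupp.coe_zero,
        Pi.zero_apply]
      by_cases he : e ∈ E
      · have h3 := congrFun hc (j, ⟨e, he⟩)
        simp only [Finset.sum_apply, Pi.smul_apply, Pi.zero_apply, smul_eq_mul, hMA,
          Fintype.sum_prod_type] at h3
        exact h3
      · refine Finset.sum_eq_zero fun i _ => Finset.sum_eq_zero fun f _ => ?_
        have : (Λ i j).coeff ((f : Γ)⁻¹ * e) = 0 := by
          by_contra hne
          have := hE0' _ f.2 _ (hK1 _ _ _ hne)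
          rw [mul_inv_cancel_left] at this
          exact he this
        rw [this, mul_zero])
    rintro ⟨i, f⟩
    have h4 := congrArg (fun z : MonoidAlgebra κ Γ => z.coeff (f : Γ)) (hd i)
    simp only [hsing, MonoidAlgebra.coeff_zero, Finsupp.coe_zero, Pi.zero_apply] at h4
    rw [dif_pos f.2] at h4
    exact h4
  have hrowB : LinearIndependent κ MB.transpose.row := by
    rw [Fintype.linearIndependent_iff]
    intro c hc
    have hd := hΘ (fun y => ∑ f : E0, MonoidAlgebra.single ((f : Γ)⁻¹) (c (y, f))) (by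
      intro j
      ext e
      simp only [Finset.mul_sum, MonoidAlgebra.coeff_sum, Finsupp.coe_finsetSum, Finset.sum_apply,
        MonoidAlgebra.coeff_mul_single_apply, MonoidAlgebra.coeff_zero, Finsupp.coe_zero,
        Pi.zero_apply, inv_inv]
      by_cases he : e⁻¹ ∈ E
      · have h3 := congrFun hc (j, ⟨e⁻¹, he⟩)
        simp only [Finset.sum_apply, Pi.smul_apply, Pi.zero_apply, smul_eq_mul, Matrix.row_apply,
          hMB, Fintype.sum_prod_type] at h3
        rw [← h3]
        refine Finset.sum_congr rfl fun y _ => Finset.sum_congr rfl fun f _ => ?_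
        show _ = c (y, f) * (Θ j y).coeff ((e⁻¹)⁻¹ * (f : Γ))
        rw [inv_inv, mul_comm]
      · refine Finset.sum_eq_zero fun y _ => Finset.sum_eq_zero fun f _ => ?_
        have : (Θ j y).coeff (e * (f : Γ)) = 0 := by
          by_contra hne
          have := hE0' _ f.2 _ (hK2 _ _ _ hne)
          rw [mul_inv_rev, mul_inv_cancel_left] at this
          exact he this
        rw [this, zero_mul])
    rintro ⟨y, f⟩
    have h4 := congrArg (fun z : MonoidAlgebra κ Γ => z.coeff ((f : Γ)⁻¹)) (hd y)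
    simp only [MonoidAlgebra.coeff_sum, Finsupp.coe_finsetSum, Finset.sum_apply,
      MonoidAlgebra.coeff_single, MonoidAlgebra.coeff_zero, Finsupp.coe_zero, Pi.zero_apply] at h4
    rw [Finset.sum_eq_single f] at h4
    · simpa using h4
    · intro b _ hb
      rw [Finsupp.single_apply, if_neg]
      intro hbg
      exact hb (Subtype.ext (inv_injective hbg))
    · intro h'
      exact absurd (Finset.mem_univ _) h'
  have h5 := Matrix.rank_add_rank_le_card_of_mul_eq_zero hprod
  rw [hrowA.rank_matrix, ← Matrix.rank_transpose, hrowB.rank_matrix] at h5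
  simp only [Fintype.card_prod, Fintype.card_coe, Fintype.card_fin] at h5
  have hEpos : 0 < E.card := Finset.card_pos.2 hEne
  have h6 : (m + 1) * E0.card ≤ m * E.card := by
    refine le_trans (Nat.mul_le_mul_right _ hcon') ?_
    rw [add_mul]
    exact h5
  have h7 : (m + 1) * E0.card + (m + 1) * B.card = (m + 1) * E.card := by
    rw [← mul_add, hcard]
  have h8 : E.card ≤ (m + 1) * B.card := by
    have : (m + 1) * E.card = m * E.card + E.card := by ring
    omega
  have h9 : (m + 2) * B.card = (m + 1) * B.card + B.card := by ring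
  have h10 : B.card = 0 := by omega
  rw [h10, mul_zero] at h8
  omega

end Pool.Agent.H90.FS
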