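import Pool.Agent.Lib_helper90.FS.Defs

set_option autoImplicit false

/-! BLOCK LZ. Linear algebra at level zero. -/

namespace Pool.Agent.H90.FS

universe u

/-- BLOCK LZ. Linear algebra at level zero: `Γ` is the quotient of `ι → ℚ` by the span of the `w l`,
`U` a maximal set of indices such that the `v i`, `i ∈ U`, are linearly independent. -/
theorem level_zero {ι : Type} [Fintype ι] [DecidableEq ι] {m : ℕ} (w : Fin m → ι → ℚ) :
    ∃ (Γ : Type u) (_ : AddCommGroup Γ) (_ : Module ℚ Γ) (v : ι → Γ) (U : Finset ι),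
      (LinearIndependent ℚ fun i : U => v i) ∧ (∀ l, ∑ i, w l i • v i = 0) ∧
      ∀ (B : Type u) [AddCommGroup B] [Module ℚ B] (h : ι → B), (∀ l, ∑ i, w l i • h i = 0) →
        (∀ i ∈ U, h i = 0) → ∀ i, h i = 0 := by
  classical
  obtain ⟨S, hS⟩ : ∃ S, S = Submodule.span ℚ (Set.range w) := ⟨_, rfl⟩
  obtain ⟨q, hq⟩ : ∃ q : ι → (ι → ℚ) ⧸ S, q = fun i => S.mkQ (Pi.single i 1) := ⟨_, rfl⟩
  have hx : ∀ x : ι → ℚ, S.mkQ x = ∑ i, x i • q i := by
    intro x
    rw [hq]
    conv_lhs => rw [pi_eq_sum_univ' x]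
    rw [map_sum]
    refine Finset.sum_congr rfl fun i _ => ?_
    rw [map_smul]
  obtain ⟨κ, a, ha, hspan, hli⟩ := exists_linearIndependent' ℚ q
  refine ⟨ULift.{u} ((ι → ℚ) ⧸ S), inferInstance, inferInstance, fun i => ULift.up (q i),
    (Set.range a).toFinset, ?_, ?_, ?_⟩
  · have h1 : ∀ i : (Set.range a).toFinset, ∃ k, a k = i := fun i => by
      have := i.2
      rw [Set.mem_toFinset] at this
      exact this
    choose f hf using h1
    have hinj : Function.Injective f := by
      intro i j hij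
      apply Subtype.ext
      rw [← hf i, ← hf j, hij]
    have h2 := hli.comp f hinj
    have h3 := h2.map' (ULift.moduleEquiv (R := ℚ) (M := (ι → ℚ) ⧸ S)).symm.toLinearMap
      (LinearMap.ker_eq_bot.2 (ULift.moduleEquiv (R := ℚ) (M := (ι → ℚ) ⧸ S)).symm.injective)
    have h4 : (fun i : (Set.range a).toFinset => (ULift.up (q i) : ULift.{u} ((ι → ℚ) ⧸ S))) =
        (ULift.moduleEquiv (R := ℚ) (M := (ι → ℚ) ⧸ S)).symm.toLinearMap ∘ ((q ∘ a) ∘ f) := by
      funext i
      simp only [Function.comp_apply, hf i]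
      rfl
    rw [h4]
    exact h3
  · intro l
    apply (ULift.moduleEquiv (R := ℚ) (M := (ι → ℚ) ⧸ S)).injective
    rw [map_sum, map_zero]
    have h1 : S.mkQ (w l) = 0 := by
      rw [Submodule.mkQ_apply, Submodule.Quotient.mk_eq_zero, hS]
      exact Submodule.subset_span ⟨l, rfl⟩
    rw [hx] at h1
    rw [← h1]
    refine Finset.sum_congr rfl fun i _ => ?_
    rw [map_smul]
    rfl
  · intro B _ _ h hw hU i
    obtain ⟨H, hH⟩ : ∃ H : (ι → ℚ) →ₗ[ℚ] B, H = Fintype.linearCombination ℚ h := ⟨_, rfl⟩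
    have hle : S ≤ LinearMap.ker H := by
      rw [hS, Submodule.span_le]
      rintro _ ⟨l, rfl⟩
      show H (w l) = 0
      rw [hH, Fintype.linearCombination_apply]
      exact hw l
    have hq' : ∀ i, S.liftQ H hle (q i) = h i := by
      intro i
      rw [hq]
      show S.liftQ H hle (S.mkQ (Pi.single i 1)) = h i
      rw [Submodule.mkQ_apply, Submodule.liftQ_apply, hH, Fintype.linearCombination_apply_single,
        one_smul]
    have hz : ∀ x ∈ Submodule.span ℚ (Set.range (q ∘ a)), S.liftQ H hle x = 0 := by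
      intro x hx
      have : Submodule.span ℚ (Set.range (q ∘ a)) ≤ LinearMap.ker (S.liftQ H hle) := by
        rw [Submodule.span_le]
        rintro _ ⟨k, rfl⟩
        show S.liftQ H hle (q (a k)) = 0
        rw [hq']
        exact hU _ (Set.mem_toFinset.2 ⟨k, rfl⟩)
      exact this hx
    rw [← hq' i]
    apply hz
    rw [hspan]
    exact Submodule.subset_span ⟨i, rfl⟩

end Pool.Agent.H90.FS
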